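import Mathlib
import Pool.Agent.X104.Gap.GpPoly

/-!
# The extremal critical-point distance at a fixed zero does not tend to one

For every `a` in `(0, 1)` the extremal distances `δ_n(a)` stay between `(1 + a) / 2` and a constant
smaller than `1` for all large `n`.
-/

set_option autoImplicit false

open Polynomial Filter Topology

namespace Pool.Agent.Results.MP_8e1908_an.NeverTendsToOne

/-- `P` has degree `n`, the zero `a`, and all its zeros lie in the closed unit disc. -/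
def Admissible (n : ℕ) (a : ℝ) (P : ℂ[X]) : Prop :=
  P.natDegree = n ∧ P.eval (a : ℂ) = 0 ∧ ∀ z : ℂ, P.eval z = 0 → ‖z‖ ≤ 1

/-- `d(a, P)`: the distance from `a` to the nearest critical point of `P`. -/
noncomputable def critDist (a : ℝ) (P : ℂ[X]) : ℝ :=
  sInf {r : ℝ | ∃ ζ : ℂ, P.derivative.eval ζ = 0 ∧ r = ‖ζ - (a : ℂ)‖}

/-- The distances `d(a, P)` of the admissible polynomials `P` of degree `n`. -/
def distances (n : ℕ) (a : ℝ) : Set ℝ := {d : ℝ | ∃ P : ℂ[X], Admissible n a P ∧ d = critDist a P}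

/-- `δ_n(a)`. -/
noncomputable def delta (n : ℕ) (a : ℝ) : ℝ := sSup (distances n a)

lemma bddBelow (a : ℝ) (P : ℂ[X]) :
    BddBelow {r : ℝ | ∃ ζ : ℂ, P.derivative.eval ζ = 0 ∧ r = ‖ζ - (a : ℂ)‖} :=
  ⟨0, by rintro r ⟨ζ, -, rfl⟩; exact norm_nonneg _⟩

/-- the example -/
noncomputable def exP (a : ℝ) (n : ℕ) : ℂ[X] :=
  (X - C ((-(1 - a) / 2 : ℝ) : ℂ)) ^ n - C ((((1 + a) / 2 : ℝ) : ℂ) ^ n)

lemma ex_adm {a : ℝ} (h0 : 0 < a) (h1 : a < 1) {n : ℕ} (hn : 2 ≤ n) : Admissible n a (exP a n) := by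
  refine ⟨?_, ?_, ?_⟩
  · unfold exP
    rw [natDegree_sub_C, natDegree_pow, natDegree_X_sub_C, mul_one]
  · unfold exP
    simp only [eval_sub, eval_pow, eval_X, eval_C]
    have : (a : ℂ) - ((-(1 - a) / 2 : ℝ) : ℂ) = (((1 + a) / 2 : ℝ) : ℂ) := by
      push_cast; ring
    rw [this, sub_self]
  · intro z hz
    unfold exP at hz
    simp only [eval_sub, eval_pow, eval_X, eval_C] at hz
    have h2 : (z - ((-(1 - a) / 2 : ℝ) : ℂ)) ^ n = (((1 + a) / 2 : ℝ) : ℂ) ^ n :=
      sub_eq_zero.mp hz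
    have h3 : ‖z - ((-(1 - a) / 2 : ℝ) : ℂ)‖ = (1 + a) / 2 := by
      have h4 := congrArg norm h2
      rw [norm_pow, norm_pow, Complex.norm_real, Real.norm_of_nonneg (by linarith)] at h4
      exact (pow_left_inj₀ (norm_nonneg _) (by linarith) (by omega)).mp h4
    have h5 : z = (z - ((-(1 - a) / 2 : ℝ) : ℂ)) + ((-(1 - a) / 2 : ℝ) : ℂ) := by ring
    rw [h5]
    refine (norm_add_le _ _).trans ?_
    rw [h3, Complex.norm_real, Real.norm_eq_abs, abs_of_nonpos (by linarith)]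
    linarith

lemma ex_dist {a : ℝ} (h0 : 0 < a) {n : ℕ} (hn : 2 ≤ n) :
    critDist a (exP a n) = (1 + a) / 2 := by
  have hset : {r : ℝ | ∃ ζ : ℂ, (exP a n).derivative.eval ζ = 0 ∧ r = ‖ζ - (a : ℂ)‖} =
      {(1 + a) / 2} := by
    have hd : (exP a n).derivative = C (n : ℂ) * (X - C ((-(1 - a) / 2 : ℝ) : ℂ)) ^ (n - 1) := by
      unfold exP
      rw [derivative_sub, derivative_C, sub_zero, derivative_X_sub_C_pow]
    have hc : ‖((-(1 - a) / 2 : ℝ) : ℂ) - (a : ℂ)‖ = (1 + a) / 2 := by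
      rw [← Complex.ofReal_sub, Complex.norm_real, Real.norm_eq_abs, abs_of_nonpos (by linarith)]
      ring
    ext r
    simp only [Set.mem_singleton_iff]
    constructor
    · rintro ⟨ζ, hζ, rfl⟩
      rw [hd] at hζ
      simp only [eval_mul, eval_C, eval_pow, eval_sub, eval_X, mul_eq_zero, Nat.cast_eq_zero] at hζ
      rcases hζ with h | h
      · exact absurd h (by omega)
      · have h2 := pow_eq_zero_iff (by omega : n - 1 ≠ 0) |>.mp h
        rw [sub_eq_zero.mp h2, hc]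
    · rintro rfl
      refine ⟨((-(1 - a) / 2 : ℝ) : ℂ), ?_, hc.symm⟩
      rw [hd]
      simp only [eval_mul, eval_C, eval_pow, eval_sub, eval_X, sub_self, mul_eq_zero]
      right
      exact zero_pow (by omega)
  unfold critDist
  rw [hset, csInf_singleton]

/-- an admissible polynomial as a product -/
lemma factor {n : ℕ} {a : ℝ} {P : ℂ[X]} (hP : Admissible (n + 1) a P) :
    ∃ z : Fin n → ℂ, (∀ j, ‖z j‖ ≤ 1) ∧
      P = C P.leadingCoeff * ((X - C (a : ℂ)) * ∏ j, (X - C (z j))) := by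
  obtain ⟨hdeg, ha, hz⟩ := hP
  have hP0 : P ≠ 0 := by
    rintro rfl
    simp at hdeg
  have hcard : Multiset.card P.roots = n + 1 := by
    rw [← hdeg]
    exact splits_iff_card_roots.mp (IsAlgClosed.splits P)
  have hfac := C_leadingCoeff_mul_prod_multiset_X_sub_C (p := P) (by rw [hcard, hdeg])
  have hamem : (a : ℂ) ∈ P.roots := (mem_roots hP0).mpr ha
  obtain ⟨R, hR⟩ := Multiset.exists_cons_of_mem hamem
  have hRcard : Multiset.card R = n := by
    rw [hR, Multiset.card_cons] at hcard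
    omega
  obtain ⟨z, hzR⟩ : ∃ z : Fin n → ℂ, R = (List.ofFn z : Multiset ℂ) := by
    obtain ⟨L, hL⟩ := Quot.exists_rep R
    have hL' : (L : Multiset ℂ) = R := hL
    have hlen : L.length = n := by
      rw [← hRcard, ← hL', Multiset.coe_card]
    subst hlen
    exact ⟨L.get, by rw [List.ofFn_get, hL']⟩
  refine ⟨z, ?_, ?_⟩
  · intro j
    apply hz
    have : z j ∈ P.roots := by
      rw [hR, hzR]
      exact Multiset.mem_cons_of_mem (by simp [List.mem_ofFn])
    exact (mem_roots hP0).mp this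
  · conv_lhs => rw [← hfac]
    rw [hR, Multiset.map_cons, Multiset.prod_cons, hzR, Multiset.map_coe, Multiset.prod_coe,
      List.map_ofFn, List.prod_ofFn]
    rfl

/-- trivial upper bound -/
lemma critDist_le_two {n : ℕ} (hn : 2 ≤ n) {a : ℝ} (h0 : 0 < a) (h1 : a < 1) {P : ℂ[X]}
    (hP : Admissible n a P) : critDist a P ≤ 2 := by
  have hP0 : P ≠ 0 := by
    rintro rfl
    have := hP.1
    simp at this
    omega
  have hd0 : P.derivative ≠ 0 := by
    intro h
    have h2 := derivative_eq_zero.mp h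
    have := hP.1
    omega
  have hdd : P.derivative.degree ≠ 0 := by
    intro h
    rw [degree_derivative (by rw [hP.1]; omega), hP.1] at h
    have h2 : n - 1 = 0 := by exact_mod_cast h
    omega
  obtain ⟨ζ, hζ⟩ := IsAlgClosed.exists_root P.derivative hdd
  have hζ0 : P.derivative.eval ζ = 0 := hζ
  have hnorm : ‖ζ‖ ≤ 1 := by
    have h2 : ζ ∈ P.derivative.rootSet ℂ := by
      rw [mem_rootSet]
      exact ⟨hd0, by simpa using hζ0⟩
    have h3 : 0 < P.degree := by
      rw [degree_eq_natDegree hP0, hP.1]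
      exact_mod_cast (by omega : 0 < n)
    have h4 := rootSet_derivative_subset_convexHull_rootSet h3 h2
    have h5 : P.rootSet ℂ ⊆ Metric.closedBall (0 : ℂ) 1 := by
      intro v hv
      rw [mem_rootSet] at hv
      rw [mem_closedBall_zero_iff]
      exact hP.2.2 v (by simpa using hv.2)
    have h6 := convexHull_min h5 (convex_closedBall (0 : ℂ) 1) h4
    rwa [mem_closedBall_zero_iff] at h6
  refine (csInf_le (bddBelow a P) ⟨ζ, hζ0, rfl⟩).trans ?_
  refine (norm_sub_le _ _).trans ?_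
  rw [Complex.norm_real, Real.norm_of_nonneg h0.le]
  linarith

lemma distances_bdd {n : ℕ} (hn : 2 ≤ n) {a : ℝ} (h0 : 0 < a) (h1 : a < 1) :
    BddAbove (distances n a) :=
  ⟨2, by rintro d ⟨P, hP, rfl⟩; exact critDist_le_two hn h0 h1 hP⟩

lemma distances_ex {n : ℕ} (hn : 2 ≤ n) {a : ℝ} (h0 : 0 < a) (h1 : a < 1) :
    (1 + a) / 2 ∈ distances n a :=
  ⟨exP a n, ex_adm h0 h1 hn, (ex_dist h0 hn).symm⟩

/-- the upper bound -/
lemma upper (a : ℝ) (h0 : 0 < a) (h1 : a < 1) : ∃ κ : ℝ, κ < 1 ∧ ∃ n₀ : ℕ, ∀ n : ℕ, n₀ ≤ n →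
    ∀ P : ℂ[X], Admissible n a P → critDist a P ≤ κ := by
  obtain ⟨ε, hε, hεa, hεa1⟩ : ∃ ε : ℝ, 0 < ε ∧ ε ≤ a ∧ a ≤ 1 - ε :=
    ⟨min a (1 - a), lt_min h0 (by linarith), min_le_left _ _, by
      have := min_le_right a (1 - a)
      linarith⟩
  obtain ⟨τ, hτ0, -, m₀, hgap⟩ := Pool.Agent.X104.Gap.gap_poly hε
  have hτ2 : 0 < 1 / (1 + τ) := by positivity
  refine ⟨Real.sqrt (1 / (1 + τ)), ?_, m₀ + 1, ?_⟩
  · rw [Real.sqrt_lt' one_pos, one_pow, div_lt_one (by linarith)]
    linarith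
  intro n hn P hP
  by_contra hc
  push Not at hc
  obtain ⟨m, rfl⟩ : ∃ m, n = m + 1 := ⟨n - 1, by omega⟩
  obtain ⟨z, hz, hfac⟩ := factor hP
  have hlc : P.leadingCoeff ≠ 0 := by
    rw [leadingCoeff_ne_zero]
    rintro rfl
    have := hP.1
    simp at this
  have hder : P.derivative = C P.leadingCoeff *
      derivative ((X - C (a : ℂ)) * ∏ j, (X - C (z j))) := by
    conv_lhs => rw [hfac]
    rw [derivative_C_mul]
  have hroots : (derivative ((X - C (a : ℂ)) * ∏ j, (X - C (z j)))).roots =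
      P.derivative.roots := by
    rw [hder, roots_C_mul _ hlc]
  have hfar : ∀ w ∈ P.derivative.roots, Real.sqrt (1 / (1 + τ)) < ‖w - (a : ℂ)‖ := by
    intro w hw
    have hw0 : P.derivative.eval w = 0 := by
      have := (mem_roots'.mp hw).2
      exact this
    exact lt_of_lt_of_le hc (csInf_le (bddBelow a P) ⟨w, hw0, rfl⟩)
  rcases hgap m (by omega) a hεa hεa1 z hz with h | h
  · rw [hroots] at h
    have := hfar _ h
    rw [sub_self, norm_zero] at this
    exact absurd this (not_lt.mpr (Real.sqrt_nonneg _))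
  · rw [hroots] at h
    have hcard : Multiset.card P.derivative.roots ≤ m := by
      refine (card_roots' _).trans ?_
      have := natDegree_derivative_le P
      rw [hP.1] at this
      simpa using this
    have hb : ∀ x ∈ P.derivative.roots.map (fun w : ℂ => (‖w - (a : ℂ)‖ ^ 2)⁻¹), x ≤ 1 + τ := by
      intro x hx
      obtain ⟨w, hw, rfl⟩ := Multiset.mem_map.mp hx
      have h2 := hfar w hw
      have h3 : 1 / (1 + τ) ≤ ‖w - (a : ℂ)‖ ^ 2 := by
        have h4 := Real.sq_sqrt hτ2.le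
        have h5 := Real.sqrt_nonneg (1 / (1 + τ))
        nlinarith
      have h6 : 0 < ‖w - (a : ℂ)‖ ^ 2 := lt_of_lt_of_le hτ2 h3
      rw [inv_le_comm₀ h6 (by linarith)]
      rwa [one_div] at h3
    have h7 := Multiset.sum_le_card_nsmul _ _ hb
    rw [Multiset.card_map, nsmul_eq_mul] at h7
    have h8 : (Multiset.card P.derivative.roots : ℝ) * (1 + τ) ≤ m * (1 + τ) := by
      have : (Multiset.card P.derivative.roots : ℝ) ≤ m := by exact_mod_cast hcard
      have h9 : 0 ≤ 1 + τ := by linarith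
      gcongr
    linarith

/-- **Negative answer to Q1, for every `a`.** Let `0 < a < 1`. There is `κ < 1` such that
`(1 + a) / 2 ≤ δ_n(a) ≤ κ` for all large `n`; in particular `δ_n(a)` does not tend to `1`. (For
`n ≥ 2` the supremum which defines `δ_n(a)` is that of a nonempty bounded set, and the lower bound
holds.) -/
theorem result (a : ℝ) (h0 : 0 < a) (h1 : a < 1) :
    (∀ n : ℕ, 2 ≤ n → (distances n a).Nonempty ∧ BddAbove (distances n a) ∧
      (1 + a) / 2 ≤ delta n a) ∧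
    (∃ κ : ℝ, κ < 1 ∧ ∃ n₀ : ℕ, ∀ n : ℕ, n₀ ≤ n → delta n a ≤ κ) ∧
    ¬ Tendsto (fun n : ℕ => delta n a) atTop (𝓝 1) := by
  have hup : ∃ κ : ℝ, κ < 1 ∧ ∃ n₀ : ℕ, ∀ n : ℕ, n₀ ≤ n → delta n a ≤ κ := by
    obtain ⟨κ, hκ, n₀, h⟩ := upper a h0 h1
    refine ⟨κ, hκ, max n₀ 2, fun n hn => ?_⟩
    refine csSup_le ⟨_, distances_ex (le_trans (le_max_right _ _) hn) h0 h1⟩ ?_
    rintro d ⟨P, hP, rfl⟩
    exact h n (le_trans (le_max_left _ _) hn) P hP
  refine ⟨fun n hn => ⟨⟨_, distances_ex hn h0 h1⟩, distances_bdd hn h0 h1,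
    le_csSup (distances_bdd hn h0 h1) (distances_ex hn h0 h1)⟩, hup, ?_⟩
  obtain ⟨κ, hκ, n₀, h⟩ := hup
  intro ht
  have h2 : (1 : ℝ) ≤ κ := le_of_tendsto ht (eventually_atTop.mpr ⟨n₀, h⟩)
  linarith

end Pool.Agent.Results.MP_8e1908_an.NeverTendsToOne
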